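import Pool.Agent.Helper85.PCP.Stmts

namespace PCP4

/-- letter coded by the second component -/
def pf_x : Fin 4 → Bool := ![true, false, true, false]

theorem pf_g (m : ℕ) (U : List Bool) (i : Fin 4) : (inst4 m U i).2 = cd (m - 1) (pf_x i) := by
  fin_cases i <;> rfl

theorem pf_g_map (m : ℕ) (U : List Bool) (w : List (Fin 4)) :
    w.flatMap (fun i => (inst4 m U i).2) = (w.map pf_x).flatMap (cd (m - 1)) := by
  rw [List.flatMap_map]
  congr 1
  funext i
  exact pf_g m U i

theorem pf_c_ne (u : Bool) : (if u then 2 else 1 : ℕ) ≠ 0 := by cases u <;> simp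

theorem pf_c_inj {u v : Bool} (h : (if u then 2 else 1 : ℕ) = if v then 2 else 1) : u = v := by
  cases u <;> cases v <;> simp_all

theorem pf_inj (β : ℕ) : ∀ (S T : List Bool), S.flatMap (cd β) = T.flatMap (cd β) → S = T := by
  intro S
  induction S with
  | nil =>
    intro T h
    cases T with
    | nil => rfl
    | cons y T => simp [cd] at h
  | cons x S ih =>
    intro T h
    cases T with
    | nil => simp [cd] at h
    | cons y T =>
      simp only [List.flatMap_cons, cd, List.cons_append, List.cons.injEq,
        List.append_cancel_left_eq] at h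
      rw [pf_c_inj h.1, ih T h.2]

/-- parsing a coded prefix -/
theorem pf_pre (β : ℕ) : ∀ (U' : List Bool) (u : Bool) (T : List Bool) (rest : List ℕ),
    T.flatMap (cd β) = U'.flatMap (cd β) ++ (if u then 2 else 1) :: rest →
    ∃ T'' : List Bool, rest = List.replicate β 0 ++ T''.flatMap (cd β) := by
  intro U'
  induction U' with
  | nil =>
    intro u T rest h
    cases T with
    | nil => simp at h
    | cons y T =>
      simp only [List.flatMap_nil, List.nil_append, List.flatMap_cons, cd, List.cons_append,
        List.cons.injEq] at h
      exact ⟨T, h.2.symm⟩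
  | cons v U' ih =>
    intro u T rest h
    cases T with
    | nil => simp [cd] at h
    | cons y T =>
      simp only [List.flatMap_cons, cd, List.cons_append, List.append_assoc, List.cons.injEq,
        List.append_cancel_left_eq] at h
      exact ih u T rest h.2

/-- the first component at `0` -/
theorem pf_h0 (m : ℕ) (hm : 2 ≤ m) (U' : List Bool) (u : Bool) :
    (inst4 m (U' ++ [u]) 0).1 = U'.flatMap (cd (m - 1)) ++ [if u then 2 else 1] := by
  have hlen : (U'.flatMap (cd (m - 1))).length = U'.length * m := by
    rw [List.length_flatMap]
    have : (fun x => (cd (m - 1) x).length) = fun _ : Bool => m := by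
      funext x
      simp only [cd, List.length_cons, List.length_replicate]
      omega
    rw [this]
    simp
  show List.take _ _ = _
  rw [List.flatMap_append, List.length_append, List.length_singleton, Nat.add_sub_cancel, ← hlen,
    List.take_append]
  simp [cd, List.take_of_length_le]

theorem pf_head (m : ℕ) (hm : 2 ≤ m) (U : List Bool) (hU : U ≠ []) (a : Fin 4)
    (ha : a = 0 ∨ a = 1) (r : List ℕ) (q : List ℕ) : (inst4 m U a).1 ++ r ≠ 0 :: q := by
  rcases ha with rfl | rfl
  · obtain ⟨U', u, rfl⟩ := List.eq_nil_or_concat'  U |>.resolve_left hU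
    rw [pf_h0 m hm]
    cases U' with
    | nil =>
      intro h
      simp only [List.flatMap_nil, List.nil_append, List.cons_append, List.cons.injEq] at h
      exact pf_c_ne u h.1
    | cons v U' =>
      intro h
      simp only [List.flatMap_cons, cd, List.cons_append, List.cons.injEq] at h
      exact pf_c_ne v h.1
  · show [1] ++ r ≠ _
    simp

/-- parsing zeros -/
theorem pf_zero (m : ℕ) (hm : 2 ≤ m) (U : List Bool) (hU : U ≠ []) (T : List Bool) :
    ∀ (b : ℕ) (w : List (Fin 4)),
    w.flatMap (fun i => (inst4 m U i).1) = List.replicate b 0 ++ T.flatMap (cd (m - 1)) →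
    ∃ p w'' : List (Fin 4), w = p ++ w'' ∧ p.length = b ∧
      p.flatMap (fun i => (inst4 m U i).1) = List.replicate b 0 ∧
      w''.flatMap (fun i => (inst4 m U i).1) = T.flatMap (cd (m - 1)) := by
  intro b
  induction b with
  | zero => intro w h; exact ⟨[], w, rfl, rfl, rfl, by simpa using h⟩
  | succ b ih =>
    intro w h
    cases w with
    | nil => simp [List.replicate_succ] at h
    | cons a w =>
      rw [List.flatMap_cons, List.replicate_succ, List.cons_append] at h
      have ha : a = 2 ∨ a = 3 := by
        by_contra hc
        have : a = 0 ∨ a = 1 := by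
          revert hc
          fin_cases a <;> simp
        exact pf_head m hm U hU a this _ _ h
      have hha : (inst4 m U a).1 = [0] := by rcases ha with rfl | rfl <;> rfl
      rw [hha, List.cons_append, List.nil_append, List.cons.injEq] at h
      obtain ⟨p, w'', rfl, hp, hp2, hw⟩ := ih w h.2
      refine ⟨a :: p, w'', rfl, by simp [hp], ?_, hw⟩
      rw [List.flatMap_cons, hha, hp2, List.replicate_succ]
      rfl

theorem pf_main (m : ℕ) (hm : 2 ≤ m) (U : List Bool) (hU : U ≠ []) :
    ∀ (n : ℕ) (w : List (Fin 4)), w.length ≤ n → ∀ T : List Bool,
    w.flatMap (fun i => (inst4 m U i).1) = T.flatMap (cd (m - 1)) →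
    ∃ K : ℕ, w.length = K * m ∧
      w.flatMap (fun i => (inst4 m U i).1) =
        ((List.range K).flatMap (fun i => fW U ((w.map pf_x).getD (i * m) false))).flatMap
          (cd (m - 1)) := by
  intro n
  induction n with
  | zero =>
    intro w hw T h
    have : w = [] := List.length_eq_zero_iff.mp (Nat.le_zero.mp hw)
    subst this
    exact ⟨0, by simp, by simp⟩
  | succ n ih =>
    intro w hw T h
    cases w with
    | nil => exact ⟨0, by simp, by simp⟩
    | cons a w =>
      -- the block of `a`
      have key : ∃ T'' : List Bool, w.flatMap (fun i => (inst4 m U i).1) =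
          List.replicate (m - 1) 0 ++ T''.flatMap (cd (m - 1)) ∧
          (inst4 m U a).1 ++ List.replicate (m - 1) 0 = (fW U (pf_x a)).flatMap (cd (m - 1)) := by
        rw [List.flatMap_cons] at h
        have ha : a = 0 ∨ a = 1 := by
          by_contra hc
          have ha2 : a = 2 ∨ a = 3 := by
            revert hc
            fin_cases a <;> simp
          have hha : (inst4 m U a).1 = [0] := by rcases ha2 with rfl | rfl <;> rfl
          rw [hha] at h
          cases T with
          | nil => simp at h
          | cons y T =>
            simp only [List.flatMap_cons, cd, List.cons_append, List.cons.injEq] at h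
            exact pf_c_ne y h.1.symm
        rcases ha with rfl | rfl
        · obtain ⟨U', u, rfl⟩ := List.eq_nil_or_concat' U |>.resolve_left hU
          rw [pf_h0 m hm, List.append_assoc] at h
          obtain ⟨T'', hT⟩ := pf_pre (m - 1) U' u T _ h.symm
          refine ⟨T'', hT, ?_⟩
          rw [pf_h0 m hm]
          show _ = (U' ++ [u]).flatMap _
          rw [List.flatMap_append]
          simp [cd]
        · have h1 : (inst4 m U 1).1 = [1] := rfl
          rw [h1] at h
          obtain ⟨T'', hT⟩ := pf_pre (m - 1) [] false T _ h.symm
          refine ⟨T'', hT, ?_⟩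
          show _ = [false].flatMap _
          rw [h1]
          simp [cd]
      obtain ⟨T'', h1, h2⟩ := key
      obtain ⟨p, w'', rfl, hp, hp2, hw2⟩ := pf_zero m hm U hU T'' (m - 1) w h1
      have hl : w''.length ≤ n := by
        simp only [List.length_cons, List.length_append] at hw
        omega
      obtain ⟨K, hK1, hK2⟩ := ih w'' hl T'' hw2
      refine ⟨K + 1, ?_, ?_⟩
      · simp only [List.length_cons, List.length_append, hp, hK1]
        rw [Nat.add_mul, Nat.one_mul]
        omega
      · rw [List.flatMap_cons, List.flatMap_append, hp2, ← List.append_assoc, h2, hK2,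
          List.range_succ_eq_map, List.flatMap_cons, List.flatMap_append, List.flatMap_map]
        congr 1
        · congr 1
          simp
        · congr 1
          congr 1
          funext i
          congr 1
          have e : i.succ * m = (p.map pf_x).length + 1 + i * m := by
            rw [Nat.succ_mul, List.length_map, hp]
            omega
          rw [e]
          simp only [List.map_cons, List.map_append]
          rw [show (p.map pf_x).length + 1 + i * m = ((p.map pf_x).length + i * m) + 1 by omega,
            List.getD_cons_succ, List.getD_append_right _ _ _ _ (by omega)]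
          congr 1
          omega

theorem st_PF : ST_PF := by
  intro m U hm hU ⟨w, hw, h⟩
  rw [pf_g_map] at h
  obtain ⟨K, hK, h2⟩ := pf_main m hm U hU w.length w le_rfl _ h
  refine ⟨K, w.map pf_x, ?_, by rw [List.length_map, hK], ?_⟩
  · rcases Nat.eq_zero_or_pos K with h0 | h0
    · rw [h0, Nat.zero_mul] at hK
      exact absurd (List.length_eq_zero_iff.mp hK) hw
    · exact h0
  · exact pf_inj (m - 1) _ _ (h.symm.trans h2)

end PCP4
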