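import Pool.Agent.Helper85.PCP.Stmts

namespace PCP4

open Turing

/-- the stacks are finitely many -/
@[reducible] def utm_fintypeK : Fintype PartrecToTM2.K' :=
  ⟨{PartrecToTM2.K'.main, PartrecToTM2.K'.rev, PartrecToTM2.K'.aux, PartrecToTM2.K'.stack},
    by intro x; cases x <;> simp⟩

/-- a code for `n ↦ eval (code n) 0` -/
theorem utm_code : ∃ c : ToPartrec.Code, ∀ n : ℕ,
    ((c.eval [n]).Dom ↔
      (Nat.Partrec.Code.eval (Denumerable.ofNat Nat.Partrec.Code n) 0).Dom) := by
  have h1 : Partrec (fun v : List.Vector ℕ 1 =>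
      Nat.Partrec.Code.eval (Denumerable.ofNat Nat.Partrec.Code v.head) 0) :=
    Nat.Partrec.Code.eval_part.comp
      ((Computable.ofNat Nat.Partrec.Code).comp Primrec.vector_head.to_comp) (Computable.const 0)
  obtain ⟨c, hc⟩ := ToPartrec.Code.exists_code (Nat.Partrec'.of_part h1)
  refine ⟨c, fun n => ?_⟩
  have h2 := hc ⟨[n], rfl⟩
  rw [h2]
  rfl

theorem utm_tm2 (c : ToPartrec.Code) (v : List ℕ) :
    (@TM2.eval PartrecToTM2.K' (fun _ => PartrecToTM2.Γ') PartrecToTM2.Λ' (Option PartrecToTM2.Γ')
      ⟨PartrecToTM2.trNormal c PartrecToTM2.Cont'.halt⟩ _ _ PartrecToTM2.tr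
      PartrecToTM2.K'.main (PartrecToTM2.trList v)).Dom ↔ (c.eval v).Dom := by
  have h := PartrecToTM2.tr_eval c v
  have e : @TM2.init PartrecToTM2.K' (fun _ => PartrecToTM2.Γ') PartrecToTM2.Λ'
      (Option PartrecToTM2.Γ') ⟨PartrecToTM2.trNormal c PartrecToTM2.Cont'.halt⟩ _ _
      PartrecToTM2.K'.main (PartrecToTM2.trList v) = PartrecToTM2.init c v := by
    unfold TM2.init PartrecToTM2.init
    congr 1
    funext x
    cases x <;> rfl
  unfold TM2.eval
  rw [e]
  show (StateTransition.eval (TM2.step PartrecToTM2.tr) (PartrecToTM2.init c v)).Dom ↔ _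
  rw [h]
  rfl

theorem utm_fold (k : ℕ) : Primrec (fun l : List ℕ => codeL k l) := by
  unfold codeL
  have h : Primrec₂ (fun (_ : List ℕ) (p : ℕ × ℕ) => k * p.2 + p.1) :=
    Primrec.nat_add.comp (Primrec.nat_mul.comp (Primrec.const k)
      (Primrec.snd.comp Primrec.snd)) (Primrec.fst.comp Primrec.snd)
  exact Primrec.list_foldr Primrec.id (Primrec.const 0) h

theorem utm_headI : Primrec (fun l : List ℕ => l.headI) := by
  refine (Primrec.option_getD.comp Primrec.list_head? (Primrec.const 0)).of_eq ?_
  intro l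
  cases l <;> rfl

theorem utm_prim (k : ℕ) (tbl : List ℕ) : Primrec (fun l : List ℕ =>
    codeL k (tbl.getD l.reverse.headI 0 :: l.reverse.tail)) := by
  refine (utm_fold k).comp ?_
  refine Primrec.list_cons.comp ?_ (Primrec.list_tail.comp Primrec.list_reverse)
  exact (Primrec.list_getD 0).comp (Primrec.const tbl) (utm_headI.comp Primrec.list_reverse)

theorem utm_inp (enc : TM2to1.Γ' PartrecToTM2.K' (fun _ => PartrecToTM2.Γ') → ℕ) (k : ℕ)
    (tbl : List ℕ) (henc0 : enc default = 0)
    (htbl : ∀ a : TM2to1.Γ' PartrecToTM2.K' (fun _ => PartrecToTM2.Γ'),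
      tbl.getD (enc a) 0 = enc (true, a.2)) (L : List PartrecToTM2.Γ') :
    codeL k (tbl.getD (L.map fun a => enc (false, Function.update (fun _ => none)
      PartrecToTM2.K'.main (some a))).reverse.headI 0 :: (L.map fun a => enc (false,
        Function.update (fun _ => none) PartrecToTM2.K'.main (some a))).reverse.tail) =
    codeL k ((TM2to1.trInit PartrecToTM2.K'.main L).map enc) := by
  congr 1
  have hrev : (L.map fun a => enc (false, Function.update (fun _ => none)
      PartrecToTM2.K'.main (some a))).reverse = (L.reverse.map fun a =>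
      ((false, Function.update (fun _ => none) PartrecToTM2.K'.main (some a)) :
        TM2to1.Γ' PartrecToTM2.K' (fun _ => PartrecToTM2.Γ'))).map enc := by
    rw [← List.map_reverse]
    exact (List.map_map).symm
  have hI : TM2to1.trInit (K := PartrecToTM2.K') (Γ := fun _ => PartrecToTM2.Γ')
      PartrecToTM2.K'.main L = (true, ((L.reverse.map fun a =>
      ((false, Function.update (fun _ => none) PartrecToTM2.K'.main (some a)) :
        TM2to1.Γ' PartrecToTM2.K' (fun _ => PartrecToTM2.Γ')))).headI.2) ::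
      ((L.reverse.map fun a =>
      ((false, Function.update (fun _ => none) PartrecToTM2.K'.main (some a)) :
        TM2to1.Γ' PartrecToTM2.K' (fun _ => PartrecToTM2.Γ')))).tail := rfl
  rw [hrev, hI]
  generalize (L.reverse.map fun a =>
      ((false, Function.update (fun _ => none) PartrecToTM2.K'.main (some a)) :
        TM2to1.Γ' PartrecToTM2.K' (fun _ => PartrecToTM2.Γ'))) = L'
  show _ = enc (true, L'.headI.2) :: List.map enc L'.tail
  congr 1
  · cases L' with
    | nil =>
      show tbl.getD 0 0 = enc (true, (default : TM2to1.Γ' PartrecToTM2.K'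
        (fun _ => PartrecToTM2.Γ')).2)
      rw [← htbl default, henc0]
    | cons a L' => exact htbl a
  · cases L' <;> rfl

theorem st_UTM (h1 : ST_TRN) : ST_UTM := by
  classical
  obtain ⟨c, hc⟩ := utm_code
  let _ := utm_fintypeK
  let iL : Inhabited PartrecToTM2.Λ' := ⟨PartrecToTM2.trNormal c PartrecToTM2.Cont'.halt⟩
  let M2 := PartrecToTM2.tr
  let M1 := TM2to1.tr (K := PartrecToTM2.K') (Γ := fun _ => PartrecToTM2.Γ')
    (Λ := PartrecToTM2.Λ') (σ := Option PartrecToTM2.Γ') M2
  let M0 := TM1to0.tr M1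
  have hs2 : TM2.Supports M2 (PartrecToTM2.codeSupp c PartrecToTM2.Cont'.halt) :=
    PartrecToTM2.tr_supports c PartrecToTM2.Cont'.halt
  have hs1 := TM2to1.tr_supports M2 hs2
  have hs0 := TM1to0.tr_supports M1 hs1
  -- encoding of the alphabet
  let G := TM2to1.Γ' PartrecToTM2.K' (fun _ => PartrecToTM2.Γ')
  let k := Fintype.card G
  have hcard : 2 ≤ k := by
    have hne : ((true, fun _ => none) : G) ≠ ((false, fun _ => none) : G) := by
      intro h
      exact Bool.noConfusion (congrArg Prod.fst h)
    exact Fintype.one_lt_card_iff.mpr ⟨_, _, hne⟩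
  have : NeZero k := ⟨by omega⟩
  let eq0 : G ≃ Fin k := Fintype.equivFin G
  let eq1 : G ≃ Fin k := eq0.trans (Equiv.swap (eq0 default) 0)
  let enc : G → ℕ := fun a => (eq1 a : ℕ)
  have henc0 : enc default = 0 := by
    show ((Equiv.swap (eq0 default) 0 (eq0 default) : Fin k) : ℕ) = 0
    rw [Equiv.swap_apply_left]
    rfl
  let e : PartrecToTM2.Γ' → ℕ := fun a =>
    enc (false, Function.update (fun _ => none) PartrecToTM2.K'.main (some a))
  let tbl : List ℕ := (List.finRange k).map (fun i => enc (true, (eq1.symm i).2))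
  have htbl : ∀ a : G, tbl.getD (enc a) 0 = enc (true, a.2) := by
    intro a
    have hlt : enc a < tbl.length := by
      show ((eq1 a : Fin k) : ℕ) < _
      rw [List.length_map, List.length_finRange]
      exact (eq1 a).2
    rw [List.getD_eq_getElem _ _ hlt]
    simp only [tbl, List.getElem_map, List.getElem_finRange]
    have : (Fin.cast (List.length_finRange) ⟨enc a, by rw [List.length_finRange]; exact (eq1 a).2⟩
        : Fin k) = eq1 a := by
      ext; rfl
    have h2 : eq1.symm (Fin.cast (List.length_finRange)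
        ⟨enc a, by rw [List.length_finRange]; exact (eq1 a).2⟩) = a := by
      rw [this]; exact eq1.symm_apply_apply a
    exact congrArg (fun b : G => enc (true, b.2)) h2
  refine ⟨G, TM1to0.Λ' M1, inferInstance, inferInstance, M0, _, k, enc,
    fun n => TM2to1.trInit PartrecToTM2.K'.main (PartrecToTM2.trList [n]), hs0, hcard,
    fun a b hab => eq1.injective (Fin.ext hab), fun a => (eq1 a).2, henc0, ?_, ?_⟩
  · exact ((utm_prim k tbl).to_comp.comp (h1 e)).of_eq
      (fun n => utm_inp enc k tbl henc0 htbl (PartrecToTM2.trList [n]))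
  · intro h
    apply ComputablePred.halting_problem 0
    have h5 : ∀ n : ℕ, (TM0.eval M0
        (TM2to1.trInit PartrecToTM2.K'.main (PartrecToTM2.trList [n]))).Dom ↔
        (c.eval [n]).Dom := by
      intro n
      have a1 : TM0.eval M0 (TM2to1.trInit PartrecToTM2.K'.main (PartrecToTM2.trList [n])) =
          TM1.eval M1 (TM2to1.trInit PartrecToTM2.K'.main (PartrecToTM2.trList [n])) :=
        TM1to0.tr_eval M1 _
      rw [a1]
      exact (TM2to1.tr_eval_dom M2 PartrecToTM2.K'.main (PartrecToTM2.trList [n])).trans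
        (utm_tm2 c [n])
    have h4 : (fun d : Nat.Partrec.Code => (d.eval 0).Dom) ≤₀
        (fun n => (TM0.eval M0
          (TM2to1.trInit PartrecToTM2.K'.main (PartrecToTM2.trList [n]))).Dom) := by
      refine ⟨Encodable.encode, Computable.encode, fun d => ?_⟩
      have h6 := (h5 (Encodable.encode d)).trans (hc (Encodable.encode d))
      rw [Denumerable.ofNat_encode] at h6
      exact h6.symm
    exact ComputablePred.computable_of_manyOneReducible h4 h

end PCP4
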